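import Pool.Agent.H568.PC.Lower
import Pool.Agent.H568.PC.Seed
import Pool.Agent.H568.PC.Cart
import Pool.Agent.H568.PC.Bridge

/-!
# Paths lying on cycles in regular `k`-connected graphs

`S d k` (defined in `Pool/Agent/H568/PC/Base.lean`) is the set of `ℓ` such that in every `d`-regular
`k`-connected finite graph every path with `ℓ` edges closes to a cycle. We determine `S d k` for
all `0 ≤ k ≤ d`.
-/

namespace Pool.Agent.Results.MP_520f61_co.PathClosure

open SimpleGraph Pool.Agent.H568.PC

/-- a cycle needs degree at least two -/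
theorem no_cycle {V : Type} [Fintype V] {G : SimpleGraph V} {d : ℕ}
    (hreg : ∀ v, (G.neighborSet v).ncard = d) (hd : d ≤ 1) {a b : V} (p : G.Walk a b) :
    ¬ Closes p := by
  rintro ⟨u, c, hc, _⟩
  have h1 := hc.ncard_neighborSet_toSubgraph_eq_two (Walk.start_mem_support c)
  have h2 := Set.ncard_le_ncard (Subgraph.neighborSet_subset c.toSubgraph u) (Set.toFinite _)
  rw [h1, hreg u] at h2
  omega

theorem S_zero : S 0 0 = {ℓ | 1 ≤ ℓ} := by
  ext ℓ
  rw [Set.mem_setOf_eq]
  constructor
  · intro h
    by_contra hcon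
    have h0 : ℓ = 0 := by omega
    subst h0
    have hreg : ∀ v : Unit, ((⊥ : SimpleGraph Unit).neighborSet v).ncard = 0 := by
      intro v
      have : (⊥ : SimpleGraph Unit).neighborSet v = ∅ := by
        ext w
        simp
      rw [this, Set.ncard_empty]
    exact no_cycle hreg (by omega) _ (h Unit ⊥ hreg (Or.inl rfl) () () Walk.nil
      Walk.IsPath.nil rfl)
  · intro hl V _ G hreg _ a b p hp hlen
    exfalso
    have h1 := p.adj_snd (not_nil_of_pos p (by omega))
    have h2 : (G.neighborSet a).Nonempty := ⟨_, h1⟩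
    rw [← Set.ncard_pos (Set.toFinite _), hreg a] at h2
    omega

theorem S_one {k : ℕ} (hk : k ≤ 1) : S 1 k = {ℓ | 2 ≤ ℓ} := by
  ext ℓ
  rw [Set.mem_setOf_eq]
  constructor
  · intro h
    by_contra hcon
    have hreg : ∀ v : Bool, ((⊤ : SimpleGraph Bool).neighborSet v).ncard = 1 := by
      intro v
      have : (⊤ : SimpleGraph Bool).neighborSet v = {!v} := by
        ext w
        cases v <;> cases w <;> simp
      rw [this, Set.ncard_singleton]
    have hconn : KConn k (⊤ : SimpleGraph Bool) := by
      apply kconn_mono hk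
      right
      refine ⟨by simp, ?_⟩
      intro X hX
      have hX0 : X = ∅ := Finset.card_eq_zero.1 (by omega)
      subst hX0
      refine connected_of_root true (by simp) ?_
      intro x _
      cases x
      · exact Rch.single (by simp) (by simp) (by simp)
      · exact Rch.refl _
    have : ℓ = 0 ∨ ℓ = 1 := by omega
    rcases this with rfl | rfl
    · exact no_cycle hreg (by omega) _ (h Bool ⊤ hreg hconn true true Walk.nil
        Walk.IsPath.nil rfl)
    · have hadj : (⊤ : SimpleGraph Bool).Adj true false := by simp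
      exact no_cycle hreg (by omega) _ (h Bool ⊤ hreg hconn _ _ hadj.toWalk
        (Walk.IsPath.of_adj hadj) rfl)
  · intro hl V _ G hreg _ a b p hp hlen
    exfalso
    have h1 := hp.ncard_neighborSet_toSubgraph_internal_eq_two (i := 1) (by omega) (by omega)
    have h2 := Set.ncard_le_ncard (Subgraph.neighborSet_subset p.toSubgraph (p.getVert 1))
      (Set.toFinite _)
    rw [h1, hreg _] at h2
    omega

/-- for `d ≥ 3` long paths need not close -/
theorem bad_long {d ℓ : ℕ} (hd : 3 ≤ d) (hl : d + 2 ≤ ℓ) : ℓ ∉ S d d := by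
  rcases Nat.lt_or_ge ℓ (d + 3) with h | h
  · have hl' : ℓ = d + 2 := by omega
    rcases Nat.lt_or_ge d 4 with h4 | h4
    · have : d = 3 := by omega
      subst this
      subst hl'
      exact co_bad3
    · exact co_bad h4 (Or.inr hl')
  · have h1 := ca_bad (s := d - 1) (ℓ := ℓ) (by omega) (by omega)
    rw [show d - 1 + 1 = d by omega] at h1
    exact h1

/-- for `d ≥ 3`, `k < d` all paths with more than `k`, at least two, edges may fail to close -/
theorem bad_small {d k ℓ : ℕ} (hd : 3 ≤ d) (hk : k < d) (hl : k + 1 ≤ ℓ) (hl2 : 2 ≤ ℓ) :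
    ℓ ∉ S d k := by
  intro hS
  rcases Nat.lt_or_ge d ℓ with h | h
  · rcases Nat.lt_or_ge ℓ (d + 2) with h2 | h2
    · have hl' : ℓ = d + 1 := by omega
      rcases Nat.lt_or_ge d 4 with h4 | h4
      · -- `d = 3`, `ℓ = 4`
        have : d = 3 := by omega
        subst this
        exact seed_bad (d := 3) (k := 2) (ℓ := ℓ) le_rfl (by omega) (by omega)
          (Or.inr ⟨by omega, le_rfl⟩) (S_mono (by omega) hS)
      · exact co_bad h4 (Or.inl hl') (S_mono hk.le hS)
    · exact bad_long hd h2 (S_mono hk.le hS)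
  · exact seed_bad (d := d) (k := ℓ - 1) (ℓ := ℓ) hd (by omega) (by omega)
      (Or.inl (by omega)) (S_mono (by omega) hS)

theorem bad_full {d ℓ : ℕ} (hd : 4 ≤ d) (hl : d + 1 ≤ ℓ) : ℓ ∉ S d d := by
  rcases Nat.lt_or_ge ℓ (d + 2) with h2 | h2
  · exact co_bad hd (Or.inl (by omega))
  · exact bad_long (by omega) h2

/-- **Result.** The sets `S d k` for all `0 ≤ k ≤ d`. -/
theorem result :
    S 0 0 = {ℓ | 1 ≤ ℓ} ∧
    (∀ k ≤ 1, S 1 k = {ℓ | 2 ≤ ℓ}) ∧
    (∀ k ≤ 2, S 2 k = Set.univ) ∧
    (∀ d k : ℕ, 3 ≤ d → Odd d → k ≤ 1 → S d k = ∅) ∧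
    (∀ d k : ℕ, 4 ≤ d → Even d → k ≤ 1 → S d k = {ℓ | ℓ ≤ 1}) ∧
    S 3 2 = {ℓ | ℓ ≤ 2} ∧
    S 3 3 = {ℓ | ℓ ≤ 4} ∧
    (∀ d k : ℕ, 4 ≤ d → 2 ≤ k → k ≤ d → S d k = {ℓ | ℓ ≤ k}) := by
  refine ⟨S_zero, fun k hk => S_one hk, ?_, ?_, ?_, ?_, ?_, ?_⟩
  · intro k _
    rw [Set.eq_univ_iff_forall]
    intro ℓ
    apply S_mono (Nat.zero_le k)
    rw [S_two]
    exact Set.mem_univ _
  · intro d k hd hodd hk
    rw [Set.eq_empty_iff_forall_notMem]
    intro ℓ hl
    rcases Nat.lt_or_ge ℓ 2 with h | h
    · exact bridge_bad hd hodd (by omega) (S_mono hk hl)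
    · exact bad_small hd (by omega) (by omega) h hl
  · intro d k hd heven hk
    ext ℓ
    rw [Set.mem_setOf_eq]
    constructor
    · intro hl
      by_contra hcon
      exact bad_small (by omega) (by omega) (by omega) (by omega) hl
    · intro hl
      apply S_mono (Nat.zero_le k)
      have : ℓ = 0 ∨ ℓ = 1 := by omega
      rcases this with rfl | rfl
      · exact zero_mem_even heven (by omega)
      · exact one_mem_even heven
  · ext ℓ
    rw [Set.mem_setOf_eq]
    constructor
    · intro hl
      by_contra hcon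
      exact bad_small le_rfl (by omega) (by omega) (by omega) hl
    · intro hl
      exact mem_S_of_le le_rfl (by omega) hl
  · ext ℓ
    rw [Set.mem_setOf_eq]
    constructor
    · intro hl
      by_contra hcon
      exact bad_long le_rfl (by omega) hl
    · intro hl
      rcases Nat.lt_or_ge ℓ 4 with h | h
      · exact mem_S_of_le (by omega) (by omega) (by omega)
      · have : ℓ = 4 := by omega
        subst this
        exact four_mem
  · intro d k hd hk hkd
    ext ℓ
    rw [Set.mem_setOf_eq]
    constructor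
    · intro hl
      by_contra hcon
      rcases Nat.lt_or_ge k d with h | h
      · exact bad_small (by omega) h (by omega) (by omega) hl
      · have : k = d := by omega
        subst this
        exact bad_full hd (by omega) hl
    · intro hl
      exact mem_S_of_le hk (by omega) hl

end Pool.Agent.Results.MP_520f61_co.PathClosure
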